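import Pool.Agent.BEN.StmtsA
import Pool.Agent.BEF.Stmts

/-!
# Squad BEN, row BAX: the approximation of degree 1
-/

set_option autoImplicit false

namespace Pool.Agent.BEN.H30

open Set Filter Topology MeasureTheory
open scoped InnerProductSpace
open Pool.Agent.BE01 Pool.Agent.BEF

theorem df0 {κ M : Type} [Fintype κ] [NormedAddCommGroup M] [NormedSpace ℝ M] (ω : ℝ)
    (P : ℝ → (κ → ℝ) → M) : DF ω (0 : κ → MvPolynomial κ ℝ) P = fun ψ z => ω • dp P ψ z := by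
  funext ψ z
  have h : vf (0 : κ → MvPolynomial κ ℝ) z = 0 := by
    funext i
    simp [vf]
  rw [DF, dv, h, map_zero, add_zero]

theorem bax (h1 : GliStmt) (_h2 : GdvStmt) (h3 : DflStmt) (h4 : QpxStmt) (h5 : GpwStmt) :
    BaxStmt := by
  intro X H _ _ _ _ W m p a0 ω φ hφ
  obtain ⟨q1, q2, q3, q4, -⟩ := h4 X H W m φ 0
  have r1 : (fun ψ z => (ω • ContinuousLinearMap.id ℝ X) (px φ ψ z)) ∈
      HG (Fin m ⊕ Fin m) X 1 :=
    (h1 _ X X (ω • ContinuousLinearMap.id ℝ X) 1 (px φ)).1 q2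
  have r2 := (h5 _ X 0 (2 * p + 1) _ 0).1 r1
  have r3 := (h1 _ X X (a0 • ContinuousLinearMap.id ℝ X) (2 * p + 1) _).1 r2
  have r4 : (fun ψ z => a0 • ((ω • px φ ψ z) ^ (2 * p + 1))) ∈
      HG (Fin m ⊕ Fin m) X (2 * p + 1) := r3
  have sq : ∀ ψ z, (ω ^ 2) • W.SX (qx φ ψ z) = qx φ ψ z := by
    intro ψ z
    rw [qx, map_sum, Finset.smul_sum]
    refine Finset.sum_congr rfl fun i _ => ?_
    rw [map_smul, smul_comm, hφ.2 i]
  refine ⟨_, r4, ⟨fun i => Submodule.zero_mem _, fun ψ z => ?_, ⟨0, Submodule.zero_mem _,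
    fun ψ z => ?_⟩, ((h1 _ X X 0 (2 * p + 1) _).2.2.1) r4, ?_⟩, fun ψ z => rfl⟩
  · rw [map_smul, sq]
  · rw [Pi.zero_apply, Pi.zero_apply, add_zero]
  have g2 := ((h1 _ X X 0 1 (px φ)).2.2.1) q2
  have d2 : DF ω 0 (qx φ) = fun ψ z => ω • px φ ψ z := by
    rw [df0, q3]
  have d3 : dp (fun ψ z => ω • px φ ψ z) = fun ψ z => - (ω • qx φ ψ z) := by
    have h := (h3 _ X X (ω • ContinuousLinearMap.id ℝ X) 1 1 (px φ) (px φ) ω 0 0 g2
      g2).2.2.2.2.2.1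
    rw [q4] at h
    have e2 : (fun ψ z => - (ω • qx φ ψ z)) =
        fun ψ z => (ω • ContinuousLinearMap.id ℝ X) ((- qx φ) ψ z) := by
      funext ψ z
      rw [Pi.neg_apply, Pi.neg_apply, map_neg]
      rfl
    rw [e2]
    exact h
  intro ψ z
  rw [d2, df0, d3]
  show ω • (- (ω • qx φ ψ z)) + (ω ^ 2) • qx φ ψ z + _ = _
  have e : ω • (- (ω • qx φ ψ z)) = - ((ω ^ 2) • qx φ ψ z) := by
    rw [smul_neg, smul_smul, ← pow_two]
  rw [e, neg_add_cancel, zero_add]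

end Pool.Agent.BEN.H30
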